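import Mathlib
import Pool.Agent.H16.IrrCover

set_option autoImplicit false

namespace Pool.Agent.Results.MP_cc5630_nt.ThetaLog

/-- a covering set: distinct moduli above 1 admitting residues that cover every integer -/
def IsCovering (S : Finset ℕ) : Prop :=
  (∀ n ∈ S, 1 < n) ∧ ∃ a : ℕ → ℤ, ∀ z : ℤ, ∃ n ∈ S, z ≡ a n [ZMOD n]

/-- an irreducible covering set: no proper subset is a covering set -/
def IsIrreducible (S : Finset ℕ) : Prop :=
  IsCovering S ∧ ∀ T : Finset ℕ, T ⊂ S → ¬ IsCovering T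

/-- the largest reciprocal sum of an irreducible covering set of size `k` -/
noncomputable def M (k : ℕ) : ℝ :=
  sSup {r : ℝ | ∃ S : Finset ℕ, IsIrreducible S ∧ S.card = k ∧ r = ∑ n ∈ S, (1 : ℝ) / n}

theorem result : ∀ k : ℕ, 512 ≤ k →
    (∃ S : Finset ℕ, IsIrreducible S ∧ S.card = k ∧ Real.log k / 24 ≤ ∑ n ∈ S, (1 : ℝ) / n) ∧
    Real.log k / 24 ≤ M k ∧ M k ≤ 2 + Real.log k := by
  intro k hk
  obtain ⟨n, E, hn, hE, hc, hl⟩ := Pool.Agent.H16.IrrCover.exists_sys k hk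
  have hI : IsIrreducible (Pool.Agent.H16.IrrCover.sys n E) := by
    refine ⟨⟨Pool.Agent.H16.IrrCover.one_lt_mem n E hn hE,
      Pool.Agent.H16.IrrCover.covers n E hn hE⟩, fun T hT ⟨_, a, ha⟩ => ?_⟩
    obtain ⟨s, hs, hsT⟩ := Finset.exists_of_ssubset hT
    obtain ⟨z, hz⟩ := Pool.Agent.H16.IrrCover.not_covers n E s hs a
    obtain ⟨m, hm, h⟩ := ha z
    exact hz m (hT.subset hm) (fun e => hsT (e ▸ hm)) h
  have hS := hl.trans (Pool.Agent.H16.IrrCover.sum_sys n E hn hE)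
  have hub : ∀ r ∈ {r : ℝ | ∃ S : Finset ℕ, IsIrreducible S ∧ S.card = k ∧
      r = ∑ n ∈ S, (1 : ℝ) / n}, r ≤ 2 + Real.log k := by
    rintro r ⟨S, h1, rfl, rfl⟩
    exact Pool.Agent.H16.IrrCover.sum_upper S h1.1.1
  exact ⟨⟨_, hI, hc, hS⟩, hS.trans (le_csSup ⟨_, hub⟩ ⟨_, hI, hc, rfl⟩),
    csSup_le ⟨_, _, hI, hc, rfl⟩ hub⟩

end Pool.Agent.Results.MP_cc5630_nt.ThetaLog
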